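import Pool.Agent.Y133.Chow.Law

/-!
# A criterion for extensions of categories of operators
-/

open Module LinearMap Finset Filter Topology

namespace Pool.Agent.Y133.AJ

open Pool.Agent.Y129 Pool.Agent.Y133.Chow

variable {K : Type*} [Field K] {H : ℕ → Type*} [∀ n, AddCommGroup (H n)]
  [∀ n, Module K (H n)] {C : ∀ m n, Submodule K (H m →ₗ[K] H n)}
  {H' : ℕ → Type*} [∀ n, AddCommGroup (H' n)]
  [∀ n, Module K (H' n)] [∀ n, Module.Finite K (H' n)]
  {C' : ∀ m n, Submodule K (H' m →ₗ[K] H' n)}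
  {π : ∀ m n, (H' m →ₗ[K] H' n) →ₗ[K] (H m →ₗ[K] H n)}

/-- A criterion for extensions. -/
theorem isExt_of_perp (hcat : IsCat C') (hmap : ∀ m n, (C' m n).map (π m n) = C m n)
    (hid : ∀ n, π n n LinearMap.id = LinearMap.id)
    (hcomp : ∀ {l m n : ℕ} {g : H' m →ₗ[K] H' n} (f : H' l →ₗ[K] H' m), g ∈ C' m n →
      π l n (g ∘ₗ f) = π m n g ∘ₗ π l m f)
    (hperp : ∀ {m n : ℕ} {f : H' m →ₗ[K] H' n}, f ∈ C' m n →
      (f ∈ perp C' m n ↔ π m n f ∈ perp C m n)) : IsExt C C' π where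
  cat := hcat
  mem := by
    intro m n f hf
    rw [← hmap m n]
    exact ⟨f, hf, rfl⟩
  map_id := hid
  map_comp := hcomp
  nd_eq := by
    intro m n e f he hf
    have h1 : sand C m n (π n n f) (π m m e) = (sand C' m n f e).map (π m n) := by
      ext a
      rw [mem_sand]
      constructor
      · rintro ⟨d, hd, rfl⟩
        rw [← hmap m n] at hd
        obtain ⟨d, hd, rfl⟩ := hd
        refine ⟨f ∘ₗ d ∘ₗ e, ⟨d, hd, rfl⟩, ?_⟩
        rw [hcomp _ hf, hcomp _ hd]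
      · rintro ⟨_, ⟨d, hd, rfl⟩, rfl⟩
        refine ⟨π m n d, ?_, ?_⟩
        · rw [← hmap m n]
          exact ⟨d, hd, rfl⟩
        · change _ = π m n (f ∘ₗ d ∘ₗ e)
          rw [hcomp _ hf, hcomp _ hd]
    rw [nd, nd, h1, ← Submodule.map_comp]
    apply finrank_map_eq
    rintro _ ⟨d, hd, rfl⟩
    have h2 := hperp (hcat.comp_mem hf (hcat.comp_mem hd he))
    rw [← Submodule.Quotient.mk_eq_zero, ← Submodule.Quotient.mk_eq_zero (perp C m n)] at h2
    exact h2

end Pool.Agent.Y133.AJ
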