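import Pool.Agent.Y133.AJ.Sys
import Pool.Agent.Y133.Chow.Main

/-!
# Systems of subspaces of the Chow groups: phantoms
-/

set_option linter.unusedSectionVars false

open CategoryTheory AlgebraicGeometry TensorProduct Filter Topology

universe u v w x

namespace Pool.Agent.Y133.AJ

open Pool.Agent.H914 Pool.Agent.H914.VarClass Pool.Agent.H914.VarClass.Obj
  Pool.Agent.H914.WeilCohomology Pool.Agent.W492.BB Pool.Agent.Y129 Pool.Agent.TH133
  Pool.Agent.H281R3.HT Pool.Agent.Y133.Chow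
open Pool.Agent.W550.Corr (dg comp_eq_extR comp_dg dg_comp comp_assoc compL compL_apply HasIso
  push_model act_dg)

variable {k : Type u} [Field k] {𝒱 : VarClass k} {ops : CycleOps 𝒱}
  {W : WeilCohomology.{u, v} ops} {C : TheoryData.{u, w, 0} 𝒱 ℚ} [hC : IsChowProj C]
  {c : ClassMap W C} {X Y Z V : 𝒱.Obj} {S : Set 𝒱.Obj} {F : ∀ Y : 𝒱.Obj, Submodule ℚ (C.A Y)}

/-- The self-correspondences in the system. -/
noncomputable def corSub (F : ∀ Y : 𝒱.Obj, Submodule ℚ (C.A Y)) (Z : 𝒱.Obj) : Submodule ℚ (Cor C Z) :=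
  F (Z.prod Z)

/-- The good idempotents belong to the system. -/
lemma goodIdem_mem (hF : IsSys c S F) {e : C.A (Z.prod Z)} (he : e ∈ F (Z.prod Z))
    {P Q : 𝒱.Obj} {f : C.A (Q.prod Q)} (hf : GoodIdem c Z P e Q f) : f ∈ F (Q.prod Q) := by
  obtain ⟨h1, φ, g, h2, h3, h4⟩ := hf
  have h5 : f = conj φ.symm (conj φ f) := (conj_symm (C := C) φ.symm f).symm
  rw [h5, h4, conj_apply]
  exact hF.pull _ (hF.tens he g)

/-- The dimension of the ideal generated by a good idempotent. -/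
lemma goodIdem_le (hF : IsSys c S F) {e : C.A (Z.prod Z)} (he' : e ∈ F (Z.prod Z))
    (he : C.comp e e = e) (he0 : e ≠ 0) {P Q : 𝒱.Obj}
    [Nontrivial (W.H (P.prod P))] [Module.Finite ℚ (F (Q.prod Q))] {f : C.A (Q.prod Q)}
    (hf : GoodIdem c Z P e Q f) :
    Module.finrank ℚ (C.A (P.prod P) ⧸ numSub c (P.prod P)) ≤
      Module.finrank ℚ (LinearMap.range (mulBy C f)) := by
  have hfF := goodIdem_mem hF he' hf
  have hle : LinearMap.range (mulBy C f) ≤ F (Q.prod Q) := by
    rintro _ ⟨a, rfl⟩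
    exact hF.comp' a hfF
  have hfin : Module.Finite ℚ (LinearMap.range (mulBy C f)) :=
    Submodule.finiteDimensional_of_le hle
  obtain ⟨h1, φ, g, h2, h3, h4⟩ := hf
  let θ : C.A (P.prod P) →ₗ[ℚ] C.A (Q.prod Q) :=
    mulBy C f ∘ₗ conj φ.symm ∘ₗ tensL (C := C) e
  have hker : LinearMap.ker θ ≤ numSub c (P.prod P) := by
    intro y hy
    have h50 : θ y = 0 := LinearMap.mem_ker.1 hy
    have h5 : C.comp (conj φ.symm (TH133.tens C e y)) f = 0 := h50
    have h6 := congrArg (conj φ) h5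
    rw [conj_comp, conj_symm, h4, tens_comp'', he, map_zero] at h6
    have h7 := numSub_of_tens (c := c) he0 h6
    have h8 : y = C.comp y g + C.comp y (dg C P - g) := by
      rw [← Pool.Agent.W550.Corr.comp_add, add_sub_cancel, comp_dg]
    rw [h8]
    exact Submodule.add_mem _ h7 (numSub_comp' _ h3)
  have h5 : LinearMap.range θ ≤ LinearMap.range (mulBy C f) :=
    LinearMap.range_comp_le_range _ _
  have h9 : Module.finrank ℚ (LinearMap.range θ) ≤
      Module.finrank ℚ (LinearMap.range (mulBy C f)) :=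
    Submodule.finrank_mono h5
  have hfin' : Module.Finite ℚ (LinearMap.range θ) := Submodule.finiteDimensional_of_le h5
  have hfin'' : Module.Finite ℚ (C.A (P.prod P) ⧸ LinearMap.ker θ) :=
    Module.Finite.equiv θ.quotKerEquivRange.symm
  have h10 : Module.finrank ℚ (C.A (P.prod P) ⧸ numSub c (P.prod P)) ≤
      Module.finrank ℚ (C.A (P.prod P) ⧸ LinearMap.ker θ) :=
    LinearMap.finrank_le_finrank_of_surjective (f := Submodule.factor hker)
      (Submodule.factor_surjective hker)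
  rw [θ.quotKerEquivRange.finrank_eq] at h10
  exact h10.trans h9

/-- The lower bound for the dimensions. -/
theorem mul_le_finrank_sys (hF : IsSys c S F) {e : C.A (Z.prod Z)} (he' : e ∈ F (Z.prod Z))
    (he : C.comp e e = e) (he0 : e ≠ 0) (hn : e ∈ numSub c _) (k : ℕ)
    [Nontrivial (W.H ((pw Z k).prod (pw Z k)))]
    [Module.Finite ℚ (F ((pw Z (k + 1)).prod (pw Z (k + 1))))] :
    (k + 1) * numRank W ((pw Z k).prod (pw Z k)) ≤
      Module.finrank ℚ (F ((pw Z (k + 1)).prod (pw Z (k + 1)))) := by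
  obtain ⟨f, hf, hf'⟩ := exists_family he hn k
  have hfin : Module.Finite ℚ (corSub F (pw Z (k + 1))) :=
    ‹Module.Finite ℚ (F ((pw Z (k + 1)).prod (pw Z (k + 1))))›
  have h1 : ∑ i, Module.finrank ℚ (LinearMap.range (mulBy C (f i))) ≤
      Module.finrank ℚ (F ((pw Z (k + 1)).prod (pw Z (k + 1)))) :=
    sum_finrank_le_sub (A := Cor C (pw Z (k + 1))) (corSub F (pw Z (k + 1)))
      f (fun i => (hf i).1) (fun i j hij => hf' j i hij.symm)
      (fun i a => hF.comp' a (goodIdem_mem hF he' (hf i)))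
  have h2 : ∀ i, numRank W ((pw Z k).prod (pw Z k)) ≤
      Module.finrank ℚ (LinearMap.range (mulBy C (f i))) := by
    intro i
    rw [numRank_eq c]
    exact goodIdem_le hF he' he he0 (hf i)
  have h3 := Finset.sum_le_sum fun i (_ : i ∈ Finset.univ) => h2 i
  rw [Finset.sum_const, Finset.card_univ, Fintype.card_fin, smul_eq_mul] at h3
  exact h3.trans h1

section closed

variable [IsAlgClosed W.K] [Nontrivial (W.H X)] [∀ n, Module.Finite ℚ (F (pw X n))]

/-- A numerically trivial correspondence which is not nilpotent. -/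
theorem infinite_of_not_nil_sys (hF : IsSys c (powSet X) F) (hS : GoodSet W (powSet X))
    (hβ : ∀ n, 0 < numRank W (pw X n))
    (hZ : Z ∈ powSet X) {f : Cor C Z} (hf : (f : C.A (Z.prod Z)) ∈ numSub c (Z.prod Z))
    (hf' : ¬ IsNilpotent f) :
    Tendsto (fun n => (Module.finrank ℚ (F (pw X n)) : ℝ) / numRank W (pw X n)) atTop
      atTop := by
  have hfin : ∀ {Y : 𝒱.Obj}, Y ∈ powSet X → Module.Finite ℚ (F Y) :=
    fun h => hF.finite_powSet h
  have hff : (f * f : Cor C Z) ∈ corSub F Z :=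
    hF.comp_mem hZ (fun h h' => prod_mem_powSet h h') hf hf
  have hfc : Module.Finite ℚ (corSub F Z) :=
    hfin (prod_mem_powSet hZ hZ)
  have hpow : ∀ r : ℕ, (f * f) ^ (r + 1) ∈ corSub F Z := by
    intro r
    induction r with
    | zero => rwa [zero_add, pow_one]
    | succ r ih =>
      rw [pow_succ]
      exact hF.comp' _ ih
  have hnil : ¬ IsNilpotent (f * f) := by
    rintro ⟨r, hr⟩
    apply hf'
    refine ⟨2 * r, ?_⟩
    rw [pow_mul, pow_two]
    exact hr
  obtain ⟨e, y, he, he0, hey⟩ := exists_idem_sub (corSub F Z) hpow hnil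
  have hn : (e : C.A (Z.prod Z)) ∈ numSub c (Z.prod Z) := by
    rw [hey, mul_assoc]
    exact numSub_comp' _ hf
  have heF : (e : C.A (Z.prod Z)) ∈ F (Z.prod Z) := by
    rw [hey]
    exact hF.comp' _ hff
  obtain ⟨m, ⟨i⟩⟩ := hZ
  have hX : X ∈ powSet X := pw_mem_powSet X 0
  obtain ⟨n₀, hn₀⟩ := quot_bounded (isPowers hS hX)
  have hiso : ∀ k, Nonempty ((pw Z k).prod (pw Z k) ≅ pw X (2 * (m + 1) * (k + 1) - 1)) := by
    intro k
    obtain ⟨j⟩ := pw_pw_iso i k
    obtain ⟨e⟩ := prod_iso_pw j j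
    have h1 : 1 ≤ (m + 1) * (k + 1) := Nat.mul_pos (Nat.succ_pos _) (Nat.succ_pos _)
    have h2 : (m + 1) * (k + 1) - 1 + ((m + 1) * (k + 1) - 1) + 1 =
        2 * (m + 1) * (k + 1) - 1 := by
      have h3 : 2 * (m + 1) * (k + 1) = 2 * ((m + 1) * (k + 1)) := by ring
      omega
    rw [h2] at e
    exact ⟨e⟩
  have hZ' : Z ∈ powSet X := ⟨m, ⟨i⟩⟩
  refine growth (γ := fun n => Module.finrank ℚ (F (pw X n))) hβ
    (monotone_nat_of_le_succ fun n => hF.finrank_mono n) (A := Module.finrank W.K (W.H X) + 1)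
    (n₀ := n₀) (by omega) hn₀ (q := 2 * (m + 1)) (by omega) ?_
  intro k
  obtain ⟨i1⟩ := hiso k
  obtain ⟨i2⟩ := hiso (k + 1)
  have hP := prod_mem_powSet (pw_mem_powSet' hZ' k) (pw_mem_powSet' hZ' k)
  have hP' := prod_mem_powSet (pw_mem_powSet' hZ' (k + 1)) (pw_mem_powSet' hZ' (k + 1))
  have h1 : Nontrivial (W.H ((pw Z k).prod (pw Z k))) := nontrivial_powSet hP
  have h3 := hfin hP'
  have h4 := mul_le_finrank_sys hF heF he he0 hn k
  rw [numRank_iso i1, hF.finrank_iso i2] at h4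
  exact h4

end closed

end Pool.Agent.Y133.AJ
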