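import Pool.Agent.Y133.AJ.Case2
import Pool.Agent.Y133.Chow.Final

/-!
# The index law for systems of subspaces of the Chow groups
-/

set_option linter.unusedSectionVars false

open CategoryTheory AlgebraicGeometry TensorProduct Filter Topology

open scoped ENNReal

universe u v w x

namespace Pool.Agent.Y133.AJ

open Pool.Agent.H914 Pool.Agent.H914.VarClass Pool.Agent.H914.VarClass.Obj
  Pool.Agent.H914.WeilCohomology Pool.Agent.W492.BB Pool.Agent.Y129 Pool.Agent.TH133
  Pool.Agent.H281R3.HT Pool.Agent.Y133.Chow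
open Pool.Agent.W550.Corr (dg comp_eq_extR comp_dg dg_comp comp_assoc compL compL_apply HasIso
  push_model act_dg)

variable {k : Type u} [Field k] {𝒱 : VarClass k} {ops : CycleOps 𝒱}
  {W : WeilCohomology.{u, v} ops} {C : TheoryData.{u, w, 0} 𝒱 ℚ} [hC : IsChowProj C]
  {c : ClassMap W C} {X Y Z V : 𝒱.Obj} {F : ∀ Y : 𝒱.Obj, Submodule ℚ (C.A Y)}

section sub

variable {S T : Set 𝒱.Obj} (hF : IsSys c T F) (hS : GoodSet W S) (hY : Y ∈ S)
  [Nontrivial (W.H Y)] [∀ n, Module.Finite ℚ (F (pw Y n))] [IsAlgClosed W.K]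

/-- A subsystem as a family of subspaces. -/
noncomputable def subSys (hF : IsSys c T F) (G : ∀ n, Submodule ℚ (C.A (pw Y n))) (n : ℕ) :
    Submodule ℚ (hF.toMod.M (pw Y n)) :=
  ((G n).comap (F (pw Y n)).subtype : Submodule ℚ (F (pw Y n)))

omit [Nontrivial (W.H Y)] [∀ n, Module.Finite ℚ (F (pw Y n))] [IsAlgClosed W.K] in
lemma finrank_subSys (hF : IsSys c T F) {G : ∀ n, Submodule ℚ (C.A (pw Y n))}
    (h : ∀ n, G n ≤ F (pw Y n)) (n : ℕ) :
    Module.finrank ℚ (subSys hF G n) = Module.finrank ℚ (G n) :=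
  (Submodule.comapSubtypeEquivOfLe (h n)).finrank_eq

omit [Nontrivial (W.H Y)] [∀ n, Module.Finite ℚ (F (pw Y n))] [IsAlgClosed W.K] in
lemma subSys_stable (hF : IsSys c T F) {G : ∀ n, Submodule ℚ (C.A (pw Y n))}
    (hG : ChowStable C Y G) : ModStable hF.toMod Y (subSys hF G) :=
  fun m n Γ x hx => hG m n Γ x.1 hx

include hF hS hY

lemma exists_gidx (hN : Nil c Y) {N : ℝ}
    (h1 : Tendsto (fun n => (Module.finrank ℚ (F (pw Y n)) : ℝ) / numRank W (pw Y n)) atTop
      (𝓝 N)) {G : ∀ n, Submodule ℚ (C.A (pw Y n))} (hG : ChowStable C Y G)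
    (hle : ∀ n, G n ≤ F (pw Y n)) :
    ∃ N' : ℕ, Tendsto (fun n => (Module.finrank ℚ (G n) : ℝ) / numRank W (pw Y n)) atTop
      (𝓝 (N' : ℝ)) ∧ (N' : ℝ) ≤ N := by
  have hfin : ∀ n, Module.Finite ℚ (hF.toMod.M (pw Y n)) := fun n =>
    (inferInstance : Module.Finite ℚ (F (pw Y n)))
  have h2 := exists_midx c hF.toMod hS hY (nilOn_of_nil c hF.toMod hN) (N := N) (by
    simp only [finrank_top]
    exact h1) (subSys_stable hF hG)
  simp only [finrank_subSys hF hle] at h2
  exact h2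

lemma sys_gap (hN : Nil c Y) {G' G : ∀ n, Submodule ℚ (C.A (pw Y n))}
    (hG' : ChowStable C Y G') (hG : ChowStable C Y G) (hle : ∀ n, G' n ≤ G n)
    (hle' : ∀ n, G n ≤ F (pw Y n)) {m : ℕ} (hne : G' m ≠ G m) {N' N : ℝ}
    (h1 : Tendsto (fun n => (Module.finrank ℚ (G' n) : ℝ) / numRank W (pw Y n)) atTop (𝓝 N'))
    (h2 : Tendsto (fun n => (Module.finrank ℚ (G n) : ℝ) / numRank W (pw Y n)) atTop (𝓝 N)) :
    N' + 1 ≤ N := by
  have hfin : ∀ n, Module.Finite ℚ (hF.toMod.M (pw Y n)) := fun n =>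
    (inferInstance : Module.Finite ℚ (F (pw Y n)))
  refine mod_gap c hF.toMod hS hY (nilOn_of_nil c hF.toMod hN) (subSys_stable hF hG')
    (subSys_stable hF hG) (fun n => Submodule.comap_mono (hle n)) (m := m) ?_ ?_ ?_
  · intro h
    apply hne
    have h3 := congrArg (Submodule.map (F (pw Y m)).subtype) h
    have h4 : ∀ {L : Submodule ℚ (C.A (pw Y m))}, L ≤ F (pw Y m) →
        Submodule.map (F (pw Y m)).subtype (L.comap (F (pw Y m)).subtype) = L := by
      intro L hL
      rw [Submodule.map_comap_subtype, inf_eq_right.2 hL]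
    have h5 : Submodule.map (F (pw Y m)).subtype ((G' m).comap (F (pw Y m)).subtype) =
        Submodule.map (F (pw Y m)).subtype ((G m).comap (F (pw Y m)).subtype) := h3
    rwa [h4 ((hle m).trans (hle' m)), h4 (hle' m)] at h5
  · simp only [finrank_subSys hF fun n => (hle n).trans (hle' n)]
    exact h1
  · simp only [finrank_subSys hF hle']
    exact h2

lemma one_le_gidx (hN : Nil c Y) {G : ∀ n, Submodule ℚ (C.A (pw Y n))} (hG : ChowStable C Y G)
    (hle : ∀ n, G n ≤ F (pw Y n)) {m : ℕ} (hne : G m ≠ ⊥) {N : ℝ}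
    (h1 : Tendsto (fun n => (Module.finrank ℚ (G n) : ℝ) / numRank W (pw Y n)) atTop (𝓝 N)) :
    1 ≤ N := by
  have h2 := sys_gap hF hS hY hN (G' := fun _ => ⊥) bot_stable hG (fun _ => bot_le) hle (m := m)
    hne.symm (N' := 0) (N := N) (by simp) h1
  linarith

/-- **Smash nilpotence.** -/
theorem extPow_eq_zero_sys (hT : ∀ n, pw Y n ∈ T) (hN : Nil c Y) {N : ℕ}
    (h1 : Tendsto (fun n => (Module.finrank ℚ (F (pw Y n)) : ℝ) / numRank W (pw Y n)) atTop
      (𝓝 (N : ℝ)))
    {z : C.A Y} (hz : z ∈ numSub c Y) {r : ℕ} (hr : N ≤ r) : extPow C z (r + 1) = 0 := by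
  have hmul : ∀ {Z : 𝒱.Obj} {a : C.A Z}, a ∈ numSub c Z → C.mulCorr a ∈ numSub c (Z.prod Z) :=
    fun ha => numSub_push _ ha
  have hΔ : ∀ r : ℕ, ∃ Δ : C.A ((pw Y r).prod (pw Y (r + 1))), Δ ∈ numSub c _ ∧
      extPow C z (r + 1) = C.act Δ (extPow C z r) := by
    intro r
    refine ⟨C.comp (C.cograph (snd Y (pw Y r))) (C.mulCorr (C.pull (fst Y (pw Y r)) z)),
      numSub_comp' _ (hmul (numSub_pull _ hz)), ?_⟩
    have e2 := C.act_comp (X := pw Y r) (Y := Y.prod (pw Y r)) (Z := Y.prod (pw Y r))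
      (C.cograph (snd Y (pw Y r))) (C.mulCorr (C.pull (fst Y (pw Y r)) z)) (extPow C z r)
    rw [C.act_cograph, C.act_mulCorr] at e2
    exact e2.symm
  have hmem : ∀ r : ℕ, extPow C z (r + 1) ∈ F (pw Y (r + 1)) := by
    intro r
    induction r with
    | zero =>
      obtain ⟨Δ, h2, h3⟩ := hΔ 0
      rw [h3]
      exact hF.sq (hT 0) (hT 1) h2 hz
    | succ r ih =>
      obtain ⟨Δ, h2, h3⟩ := hΔ (r + 1)
      rw [h3]
      exact hF.act Δ ih
  have hgen : ∀ r n : ℕ, gen C Y (extPow C z (r + 1)) n ≤ F (pw Y n) := by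
    rintro r n _ ⟨Γ, rfl⟩
    exact hF.act Γ (hmem r)
  have key : ∀ r : ℕ, extPow C z (r + 1) ≠ 0 → ∃ N' : ℕ,
      Tendsto (fun n => (Module.finrank ℚ (gen C Y (extPow C z (r + 1)) n) : ℝ) /
        numRank W (pw Y n)) atTop (𝓝 (N' : ℝ)) ∧ (N' : ℝ) + r ≤ N := by
    intro r
    induction r with
    | zero =>
      intro hne
      obtain ⟨N', h2, h3⟩ := exists_gidx hF hS hY hN h1
        (gen_stable (Y := Y) (extPow C z (0 + 1))) (hgen 0)
      refine ⟨N', h2, ?_⟩
      push_cast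
      linarith
    | succ r ih =>
      intro hne
      have hne' : extPow C z (r + 1) ≠ 0 := by
        intro h0
        apply hne
        change C.ext z (extPow C z (r + 1)) = 0
        rw [h0, C.ext_zero_right]
      obtain ⟨N₀, h3, h3'⟩ := ih hne'
      obtain ⟨Δ, hΔ1, e1⟩ := hΔ (r + 1)
      obtain ⟨N', h2, -⟩ := exists_gidx hF hS hY hN h1
        (gen_stable (Y := Y) (extPow C z (r + 1 + 1))) (hgen (r + 1))
      refine ⟨N', h2, ?_⟩
      rw [e1] at h2
      have h4 := sys_gap hF hS hY hN (gen_stable (Y := Y) (C.act Δ (extPow C z (r + 1))))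
        (gen_stable (Y := Y) (extPow C z (r + 1))) (fun n => gen_le Δ n) (hgen r)
        (gen_ne c hN hne' hΔ1) h2 h3
      push_cast
      linarith
  by_contra hne
  obtain ⟨N', h2, h3⟩ := key r hne
  have h4 := one_le_gidx hF hS hY hN (gen_stable (Y := Y) (extPow C z (r + 1))) (hgen r)
    (m := r + 1) (fun h0 => by
      apply hne
      have h5 := mem_gen_self (Y := Y) (extPow C z (r + 1))
      rw [h0, Submodule.mem_bot] at h5
      exact h5) h2
  have h5 : (N : ℝ) ≤ r := by exact_mod_cast hr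
  linarith

end sub

section closed

variable [IsAlgClosed W.K] [Nontrivial (W.H X)] [∀ n, Module.Finite ℚ (F (pw X n))]

/-- The law if the numerically trivial correspondences are nilpotent. -/
theorem law_of_nil_sys (hF : IsSys c (powSet X) F) (hS : GoodSet W (powSet X))
    (hnil : ∀ Z ∈ powSet X, ∀ f : Cor C Z,
      (f : C.A (Z.prod Z)) ∈ numSub c (Z.prod Z) → IsNilpotent f) :
    Tendsto (fun n => (Module.finrank ℚ (F (pw X n)) : ℝ) / numRank W (pw X n)) atTop
      atTop ∨ ∃ N : ℕ,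
    Tendsto (fun n => (Module.finrank ℚ (F (pw X n)) : ℝ) / numRank W (pw X n)) atTop
      (𝓝 (N : ℝ)) ∧ (N = 0 → ∀ n, F (pw X n) = ⊥) ∧
      ∀ r, N ≤ r → ∀ n, ∀ x ∈ numSub c (pw X n), extPow C x (r + 1) = 0 := by
  have hN : Nil c X := fun n f hf => hnil _ (pw_mem_powSet X n) f hf
  have hX : X ∈ powSet X := pw_mem_powSet X 0
  have hfin : ∀ n, Module.Finite ℚ (hF.toMod.M (pw X n)) := fun n =>
    (inferInstance : Module.Finite ℚ (F (pw X n)))
  rcases mod_law c hF.toMod hS hX (nilOn_of_nil c hF.toMod hN) (G := fun _ => ⊤)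
    (top_modStable hF.toMod) with ⟨N, h1⟩ | h1
  · right
    have h1' : Tendsto (fun n => (Module.finrank ℚ (F (pw X n)) : ℝ) / numRank W (pw X n))
        atTop (𝓝 (N : ℝ)) := by
      simp only [finrank_top] at h1
      exact h1
    refine ⟨N, h1', ?_, ?_⟩
    · intro hN0 n
      by_contra hne
      have h2 := one_le_gidx hF hS hX hN (G := fun n => F (pw X n))
        (fun m n Γ x hx => hF.act Γ hx) (fun _ => le_rfl) (m := n) hne h1'
      rw [hN0] at h2
      norm_num at h2
    · intro r hr n x hx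
      have hY := pw_mem_powSet X n
      have : Nontrivial (W.H (pw X n)) := nontrivial_pw n
      have hfin' : ∀ l, Module.Finite ℚ (F (pw (pw X n) l)) := fun l =>
        hF.finite_powSet (pw_mem_powSet' hY l)
      refine extPow_eq_zero_sys hF hS hY (fun l => pw_mem_powSet' hY l)
        (fun l f hf => hnil _ (pw_mem_powSet' hY l) f hf) ?_ hx hr
      have h2 : Tendsto (fun l => (n + 1) * (l + 1) - 1) atTop atTop := by
        rw [tendsto_atTop]
        intro A
        filter_upwards [eventually_ge_atTop A] with l hl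
        have h3 : l + 1 ≤ (n + 1) * (l + 1) := Nat.le_mul_of_pos_left _ (Nat.succ_pos _)
        omega
      refine (h1'.comp h2).congr fun l => ?_
      obtain ⟨j⟩ := pw_pw_iso (Iso.refl (pw X n)) l
      simp only [Function.comp_apply]
      rw [hF.finrank_iso j, numRank_iso j]
  · left
    simp only [finrank_top] at h1
    exact h1

end closed

omit hC in
lemma IsSys.base' (hF : IsSys c (powSet X) F) (L : Type v) [Field L] [Algebra W.K L] [IsChowProj C] :
    IsSys (c.base L) (powSet X) F where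
  act Γ _ hx := hF.act Γ hx
  sq := by
    intro Y Z h h' Γ x hΓ hx
    rw [numSub_base] at hΓ hx
    exact hF.sq h h' hΓ hx

/-- The law in terms of real numbers. -/
theorem sys_real [Nontrivial (W.H X)] [∀ n, Module.Finite ℚ (F (pw X n))]
    (hF : IsSys c (powSet X) F) (hfull : Full W X) :
    Tendsto (fun n => (Module.finrank ℚ (F (pw X n)) : ℝ) / numRank W (pw X n)) atTop
      atTop ∨ ∃ N : ℕ,
    Tendsto (fun n => (Module.finrank ℚ (F (pw X n)) : ℝ) / numRank W (pw X n)) atTop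
      (𝓝 (N : ℝ)) ∧ (N = 0 → ∀ n, F (pw X n) = ⊥) ∧
      ∀ r, N ≤ r → ∀ n, ∀ x ∈ numSub c (pw X n), extPow C x (r + 1) = 0 := by
  obtain ⟨z, hz⟩ := exists_point c (X := X)
  have hcl : IsAlgClosed (baseW W (AlgebraicClosure W.K)).K :=
    (inferInstance : IsAlgClosed (AlgebraicClosure W.K))
  have hnt : Nontrivial ((baseW W (AlgebraicClosure W.K)).H X) := nontrivial_base _
  have hF' : GoodSet (baseW W (AlgebraicClosure W.K)) (powSet X) := hfull
  have hb := hF.base' (AlgebraicClosure W.K)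
  by_cases hnil : ∀ Z ∈ powSet X, ∀ f : Cor C Z,
    (f : C.A (Z.prod Z)) ∈ numSub (c.base (AlgebraicClosure W.K)) (Z.prod Z) → IsNilpotent f
  · have h1 := law_of_nil_sys hb hF' hnil
    simp only [numRank_base, numSub_base] at h1
    exact h1
  · left
    push Not at hnil
    obtain ⟨Z, hZ, f, hf, hf'⟩ := hnil
    have h1 := infinite_of_not_nil_sys hb hF' (fun n => by
      rw [numRank_base]
      exact numRank_pos c n) hZ hf hf'
    simp only [numRank_base] at h1
    exact h1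

end Pool.Agent.Y133.AJ
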