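import Pool.Agent.Y133.Chow.HDefs

/-!
# Abel–Jacobi maps: definitions
-/

open CategoryTheory AlgebraicGeometry Filter Topology

universe u v w x

namespace Pool.Agent.Y133.AJ

section Alg

variable {A A' B J J' : Type*} [Ring A] [Algebra ℚ A] [Ring B] [AddCommGroup J] [AddCommGroup J']

/-- The function `f` is additive on the elements killed by `c`. -/
def AddOn (c : A →+* B) (f : A → J) : Prop :=
  ∀ x y, c x = 0 → c y = 0 → f (x + y) = f x + f y

/-- On the elements killed by `c`, the functions `f` and `f'` are compatible with the maps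
`s : A → A'` and `r : J → J'`. -/
def CompatOn (c : A →+* B) (f : A → J) (f' : A' → J') (s : A → A') (r : J →+ J') : Prop :=
  ∀ x, c x = 0 → f' (s x) = r (f x)

/-- No nonzero element killed by `c` is killed by `f`. -/
def InjOn (c : A →+* B) (f : A → J) : Prop := ∀ x, c x = 0 → f x = 0 → x = 0

/-- The dimension of the rational span of the elements killed by `c` and `f`, an element of
`ℕ ∪ {∞}`. -/
noncomputable def nullDim (c : A →+* B) (f : A → J) : ℕ∞ :=
  Cardinal.toENat (Module.rank ℚ (Submodule.span ℚ {x | c x = 0 ∧ f x = 0}))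

end Alg

open Pool.Agent.H914 Pool.Agent.H914.VarClass Pool.Agent.H914.VarClass.Obj
  Pool.Agent.H914.WeilCohomology Pool.Agent.W492.BB Pool.Agent.Y133.Chow

variable {k : Type u} [Field k] {𝒱 : VarClass k} {ops : CycleOps 𝒱}
  {W : WeilCohomology.{u, v} ops} {C : TheoryData.{u, w, 0} 𝒱 ℚ}

/-- An Abel–Jacobi map: additive maps from the homologically trivial elements of `C(X)` to groups
`J(X)` on which the correspondences operate, the homologically trivial ones as zero; the maps are
compatible with the operations of the correspondences. (The values of `aj` are only used for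
homologically trivial elements.) -/
structure AbelJacobi (c : ClassMap W C) where
  /-- the target, for example the intermediate Jacobians with rational coefficients -/
  J : 𝒱.Obj → Type x
  [grp : ∀ X, AddCommGroup (J X)]
  /-- the operation of a correspondence -/
  corr : ∀ {X Y : 𝒱.Obj}, C.A (X.prod Y) → J X →+ J Y
  /-- the Abel–Jacobi map -/
  aj : ∀ X : 𝒱.Obj, C.A X → J X
  aj_add : ∀ X : 𝒱.Obj, AddOn (c.cl X) (aj X)
  aj_corr : ∀ {X Y : 𝒱.Obj} (Γ : C.A (X.prod Y)),
    CompatOn (c.cl X) (aj X) (aj Y) (C.act Γ) (corr Γ)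
  corr_hom : ∀ {X Y : 𝒱.Obj} (Γ : C.A (X.prod Y)), HomTrivial c (X.prod Y) Γ → corr Γ = 0

attribute [instance] AbelJacobi.grp

/-- The dimension of the kernel of the Abel–Jacobi map of `X`. -/
noncomputable def ajDim {c : ClassMap W C} (α : AbelJacobi.{u, v, w, x} c) (X : 𝒱.Obj) : ℕ∞ :=
  nullDim (c.cl X) (α.aj X)

/-- The Abel–Jacobi map of `X` is injective on the homologically trivial elements. -/
def AJInjective {c : ClassMap W C} (α : AbelJacobi.{u, v, w, x} c) (X : 𝒱.Obj) : Prop :=
  InjOn (c.cl X) (α.aj X)

end Pool.Agent.Y133.AJ
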