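import Pool.Agent.Y133.AJ.Core
import Pool.Agent.Y133.AJ.Defs
import Pool.Agent.Y133.Chow.Hom

/-!
# The index of the kernel of the Abel–Jacobi map
-/

set_option linter.unusedSectionVars false

open CategoryTheory AlgebraicGeometry TensorProduct Filter Topology

open scoped ENNReal

universe u v w x

namespace Pool.Agent.Y133.AJ

open Pool.Agent.H914 Pool.Agent.H914.VarClass Pool.Agent.H914.VarClass.Obj
  Pool.Agent.H914.WeilCohomology Pool.Agent.W492.BB Pool.Agent.Y129 Pool.Agent.TH133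
  Pool.Agent.H281R3.HT Pool.Agent.Y133.Chow

variable {k : Type u} [Field k] {𝒱 : VarClass k} {ops : CycleOps 𝒱}
  {W : WeilCohomology.{u, v} ops} {C : TheoryData.{u, w, 0} 𝒱 ℚ} [hC : IsChowProj C]
  {c : ClassMap W C} {X Y Z V : 𝒱.Obj} {F : ∀ Y : 𝒱.Obj, Submodule ℚ (C.A Y)}

/-! ### Homological and numerical equivalence -/

lemma hom_of_num (hD : HomIsNum c X) (h : Y ∈ powSet X) {x : C.A Y} (hx : x ∈ numSub c Y) :
    c.cl Y x = 0 := by
  obtain ⟨n, ⟨i⟩⟩ := h
  have h1 : c.cl _ (C.pull i.inv x) = 0 := hD n _ (numSub_pull i.inv hx)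
  have h2 : C.pull i.hom (C.pull i.inv x) = x := by
    rw [← C.pull_comp, i.hom_inv_id, C.pull_id]
  rw [← h2, c.cl_pull, h1, map_zero]

lemma finrank_algSpan_le_num [Nontrivial (W.H Y)] (h : ∀ x ∈ numSub c Y, c.cl Y x = 0) :
    Module.finrank W.K (algSpan W Y) ≤ numRank W Y := by
  have := finite_quot c (X := Y)
  set β := Module.finBasis ℚ (C.A Y ⧸ numSub c Y) with hβ
  choose x hx using fun i => Submodule.mkQ_surjective (numSub c Y) (β i)
  have h1 : algSpan W Y ≤ Submodule.span W.K (Set.range fun i => c.cl Y (x i)) := by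
    rw [c.algSpan_eq, Submodule.span_le]
    rintro _ ⟨y, rfl⟩
    have h1 := β.sum_repr (Submodule.Quotient.mk y)
    have h2 : y - ∑ i, (β.repr (Submodule.Quotient.mk y) i) • x i ∈ numSub c Y := by
      rw [← Submodule.Quotient.mk_eq_zero, Submodule.Quotient.mk_sub, sub_eq_zero, ← h1,
        ← Submodule.mkQ_apply (numSub c Y) (∑ i, _), map_sum]
      apply Finset.sum_congr rfl
      intro i _
      rw [map_smul, hx, h1]
    have h3 := h _ h2
    rw [map_sub, map_sum, sub_eq_zero] at h3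
    rw [h3]
    apply Submodule.sum_mem
    intro i _
    rw [c.cl_smul]
    exact Submodule.smul_mem _ _ (Submodule.subset_span ⟨i, rfl⟩)
  rw [numRank_eq c]
  refine (Submodule.finrank_mono h1).trans ?_
  exact (finrank_range_le_card (R := W.K) fun i => c.cl Y (x i)).trans (by rw [Fintype.card_fin])

include c in
lemma full_of_homIsNum [Nontrivial (W.H X)] (hD : HomIsNum c X) : Full W X := by
  obtain ⟨z, hz⟩ := exists_point c (X := X)
  rcases full_or_infinite (c.cl_mem_algSpan z) hz with hF | hF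
  · exact hF
  · exfalso
    have h1 := hF (fun n => algSpan W (pw X n)) fun n => le_rfl
    have h2 : ∀ n, (Module.finrank W.K (algSpan W (pw X n)) : ℝ) / numRank W (pw X n) ≤ 1 := by
      intro n
      have : Nontrivial (W.H (pw X n)) := nontrivial_pw n
      apply div_le_one_of_le₀ _ (Nat.cast_nonneg _)
      exact_mod_cast finrank_algSpan_le_num fun x hx => hD n x hx
    obtain ⟨n, hn⟩ := (h1.eventually (eventually_gt_atTop 1)).exists
    exact absurd (h2 n) (not_le.2 hn)

/-! ### Dimensions in `ℕ ∪ {∞}` -/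

/-- **The index law for systems.** -/
theorem sys_law [Nontrivial (W.H X)] (hF : IsSys c (powSet X) F) (hfull : Full W X) :
    ∃ N : ℕ∞, Tendsto (fun n => ((Cardinal.toENat (Module.rank ℚ (F (pw X n))) : ℕ∞) : ℝ≥0∞) /
        Half.cycRank ops (pw X n)) atTop (𝓝 (N : ℝ≥0∞)) ∧
      (N = 0 → ∀ n, F (pw X n) = ⊥) ∧
      ∀ r : ℕ, N ≤ r → ∀ n, ∀ x ∈ numSub c (pw X n), extPow C x (r + 1) = 0 := by
  have hpos : ∀ n, 0 < numRank W (pw X n) := numRank_pos c
  have htop : Tendsto (fun n => ((Cardinal.toENat (Module.rank ℚ (F (pw X n))) : ℕ∞) : ℝ≥0∞) /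
      Half.cycRank ops (pw X n)) atTop (𝓝 ((⊤ : ℕ∞) : ℝ≥0∞)) → ∃ N : ℕ∞,
      Tendsto (fun n => ((Cardinal.toENat (Module.rank ℚ (F (pw X n))) : ℕ∞) : ℝ≥0∞) /
        Half.cycRank ops (pw X n)) atTop (𝓝 (N : ℝ≥0∞)) ∧
      (N = 0 → ∀ n, F (pw X n) = ⊥) ∧
      ∀ r : ℕ, N ≤ r → ∀ n, ∀ x ∈ numSub c (pw X n), extPow C x (r + 1) = 0 := by
    intro h
    refine ⟨⊤, h, fun h1 => absurd h1 (by simp), ?_⟩
    intro r hr
    exact absurd hr (by simp)
  have hfr : ∀ n, Module.Finite ℚ (F (pw X n)) → Cardinal.toENat (Module.rank ℚ (F (pw X n))) =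
      (Module.finrank ℚ (F (pw X n)) : ℕ∞) := by
    intro n hn
    rw [← Module.finrank_eq_rank, Cardinal.toENat_nat]
  have hinf : ∀ n, ¬ Module.Finite ℚ (F (pw X n)) →
      Cardinal.toENat (Module.rank ℚ (F (pw X n))) = ⊤ := by
    intro n hn
    rw [Cardinal.toENat_eq_top]
    by_contra h1
    push Not at h1
    exact hn (Module.rank_lt_aleph0_iff.1 h1)
  by_cases hfin : ∀ n, Module.Finite ℚ (F (pw X n))
  · have hdiv : ∀ n, ENNReal.ofReal ((Module.finrank ℚ (F (pw X n)) : ℝ) /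
        numRank W (pw X n)) = ((Cardinal.toENat (Module.rank ℚ (F (pw X n))) : ℕ∞) : ℝ≥0∞) /
          Half.cycRank ops (pw X n) := by
      intro n
      rw [ratio_ofReal (hpos n), hfr n (hfin n), cycRank_eq W, ENat.toENNReal_coe]
    rcases sys_real hF hfull with h1 | ⟨N, h1, h2, h3⟩
    · apply htop
      have h3 := (ENNReal.tendsto_ofReal_atTop.comp h1).congr hdiv
      rw [ENat.toENNReal_top]
      exact h3
    · refine ⟨N, ?_, fun h5 => h2 (by exact_mod_cast h5), ?_⟩
      · have h5 := (ENNReal.tendsto_ofReal h1).congr hdiv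
        rw [ENat.toENNReal_coe]
        rwa [ENNReal.ofReal_natCast] at h5
      · intro r hr n x hx
        exact h3 r (by exact_mod_cast hr) n x hx
  · apply htop
    push Not at hfin
    obtain ⟨n₀, hn₀⟩ := hfin
    have h1 : ∀ n, n₀ ≤ n → ¬ Module.Finite ℚ (F (pw X n)) := by
      intro n hn
      induction n, hn using Nat.le_induction with
      | base => exact hn₀
      | succ n _ ih => exact hF.not_finite_succ ih
    rw [ENat.toENNReal_top]
    refine tendsto_const_nhds.congr' ?_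
    filter_upwards [eventually_ge_atTop n₀] with n hn
    rw [hinf n (h1 n hn), ENat.toENNReal_top,
      ENNReal.top_div_of_ne_top (ENNReal.natCast_ne_top _)]

/-! ### Abel–Jacobi maps -/

section aj

variable (α : AbelJacobi.{u, v, w, x} c)

/-- The span of the kernel of the Abel–Jacobi map. -/
noncomputable def ajSub (Y : 𝒱.Obj) : Submodule ℚ (C.A Y) :=
  Submodule.span ℚ {x | c.cl Y x = 0 ∧ α.aj Y x = 0}

lemma act_cl_zero (Γ : C.A (Y.prod Z)) {x : C.A Y} (hx : c.cl Y x = 0) :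
    c.cl Z (C.act Γ x) = 0 := by
  rw [Chow.cl_act, hx, map_zero]

lemma ajSub_isSys (hD : HomIsNum c X) : IsSys c (powSet X) (ajSub α) where
  act := by
    intro Y Z Γ x hx
    rw [ajSub] at hx
    induction hx using Submodule.span_induction with
    | mem x hx =>
      obtain ⟨h, h'⟩ := hx
      refine Submodule.subset_span ⟨act_cl_zero Γ h, ?_⟩
      rw [α.aj_corr Γ x h, h', map_zero]
    | zero => rw [C.act_map_zero]; exact Submodule.zero_mem _
    | add a b _ _ ha hb =>
      have h1 : C.act Γ (a + b) = C.act Γ a + C.act Γ b := (C.actL Γ).map_add a b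
      rw [h1]
      exact Submodule.add_mem _ ha hb
    | smul r a _ ha =>
      have h1 : C.act Γ (r • a) = r • C.act Γ a := (C.actL Γ).map_smul r a
      rw [h1]
      exact Submodule.smul_mem _ _ ha
  sq := by
    intro Y Z hY hZ Γ x hΓ hx
    have h : c.cl Y x = 0 := hom_of_num hD hY hx
    have h1 : HomTrivial c (Y.prod Z) Γ := hom_of_num hD (prod_mem_powSet hY hZ) hΓ
    refine Submodule.subset_span ⟨act_cl_zero Γ h, ?_⟩
    rw [α.aj_corr Γ x h, α.corr_hom Γ h1, AddMonoidHom.zero_apply]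

omit hC in
lemma ajSub_eq_bot : ajSub α Y = ⊥ ↔ AJInjective α Y := by
  rw [ajSub, Submodule.span_eq_bot]
  exact ⟨fun h x h1 h2 => h x ⟨h1, h2⟩, fun h x hx => h x hx.1 hx.2⟩

/-- **The index of the kernel of the Abel–Jacobi map.** -/
theorem aj_index [Nontrivial (W.H X)] (hD : HomIsNum c X) : ∃ N : ℕ∞,
    RatioTendsTo (fun n => ajDim α (pw X n)) (fun n => numDim c (pw X n)) N ∧
    (N = 0 ↔ ∀ n, AJInjective α (pw X n)) ∧
    ∀ r : ℕ, N ≤ r → ∀ n x, HomTrivial c (pw X n) x → extPow C x (r + 1) = 0 := by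
  obtain ⟨N, h1, h2, h3⟩ := sys_law (ajSub_isSys α hD) (full_of_homIsNum hD)
  have h1' := (ratio_iff c (b := fun n => ajDim α (pw X n))).2 h1
  refine ⟨N, h1', ⟨fun h n => (ajSub_eq_bot α).1 (h2 h n), fun h => ?_⟩,
    fun r hr n x hx => h3 r hr n x (numTrivial_of_hom c hx)⟩
  have h4 : ∀ n, Cardinal.toENat (Module.rank ℚ (ajSub α (pw X n))) = 0 := by
    intro n
    rw [(ajSub_eq_bot α).2 (h n), rank_bot, map_zero]
  have h5 : Tendsto (fun _ : ℕ => (0 : ℝ≥0∞)) atTop (𝓝 (N : ℝ≥0∞)) := by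
    refine h1.congr fun n => ?_
    rw [h4, ENat.toENNReal_zero, ENNReal.zero_div]
  have h6 := tendsto_nhds_unique h5 tendsto_const_nhds
  exact ENat.toENNReal_eq_zero.1 h6

end aj

end Pool.Agent.Y133.AJ
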