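import Pool.Agent.Y133.Chow.CaseI

/-!
# Operators on cohomology and a module over the correspondences
-/

set_option linter.unusedSectionVars false

open CategoryTheory AlgebraicGeometry TensorProduct

universe u v w x

namespace Pool.Agent.Y133.AJ

open Pool.Agent.H914 Pool.Agent.H914.VarClass Pool.Agent.H914.VarClass.Obj
  Pool.Agent.H914.WeilCohomology Pool.Agent.W492.BB Pool.Agent.Y129 Pool.Agent.TH133
  Pool.Agent.H281R3.HT Pool.Agent.Y133.Chow
open Pool.Agent.W550.Corr (dg comp_eq_extR comp_dg dg_comp comp_assoc compL compL_apply HasIso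
  push_model act_dg)

variable {k : Type u} [Field k] {𝒱 : VarClass k} {ops : CycleOps 𝒱}

/-- Rational vector spaces on which the correspondences operate. -/
structure CorMod (C : TheoryData.{u, w, 0} 𝒱 ℚ) where
  /-- the space -/
  M : 𝒱.Obj → Type x
  [grp : ∀ X, AddCommGroup (M X)]
  [mod : ∀ X, Module ℚ (M X)]
  /-- the operation -/
  act : ∀ {X Y : 𝒱.Obj}, C.A (X.prod Y) →ₗ[ℚ] M X →ₗ[ℚ] M Y
  act_comp : ∀ {X Y Z : 𝒱.Obj} (Γ : C.A (X.prod Y)) (Δ : C.A (Y.prod Z)) (a : M X),
    act (C.comp Γ Δ) a = act Δ (act Γ a)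
  act_dg : ∀ (X : 𝒱.Obj) (a : M X), act (dg C X) a = a

attribute [instance] CorMod.grp CorMod.mod

variable {W : WeilCohomology.{u, v} ops} {C : TheoryData.{u, w, 0} 𝒱 ℚ} [hC : IsChowProj C]
  (c : ClassMap W C) (M : CorMod.{u, w, x} C) {X Y Z : 𝒱.Obj}

/-- The sum of the cohomology and the module. -/
abbrev Hm (_c : ClassMap W C) (M : CorMod.{u, w, x} C) (X : 𝒱.Obj) : Type _ :=
  W.H X × (W.K ⊗[ℚ] M.M X)

/-- The operator given by a correspondence. -/
noncomputable def om (Γ : C.A (X.prod Y)) : Hm c M X →ₗ[W.K] Hm c M Y :=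
  LinearMap.prodMap (W.corr (c.cl _ Γ)) ((M.act Γ).baseChange W.K)

lemma om_add (Γ Δ : C.A (X.prod Y)) : om c M (Γ + Δ) = om c M Γ + om c M Δ := by
  rw [om, map_add, corr_add, map_add, LinearMap.baseChange_add]
  apply LinearMap.ext
  intro x
  rfl

lemma om_smul (q : ℚ) (Γ : C.A (X.prod Y)) : om c M (q • Γ) = (q : W.K) • om c M Γ := by
  have h1 : ((M.act (q • Γ)).baseChange W.K : W.K ⊗[ℚ] M.M X →ₗ[W.K] W.K ⊗[ℚ] M.M Y) =
      (q : W.K) • (M.act Γ).baseChange W.K := by
    apply TensorProduct.AlgebraTensorModule.ext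
    intro r x
    rw [LinearMap.baseChange_tmul, LinearMap.smul_apply, LinearMap.baseChange_tmul, map_smul,
      LinearMap.smul_apply,
      TensorProduct.tmul_smul, TensorProduct.smul_tmul', TensorProduct.smul_tmul', Rat.smul_def,
      smul_eq_mul]
  rw [om, c.cl_smul, corr_smul, h1]
  apply LinearMap.ext
  intro x
  rfl

lemma om_zero : om c M (0 : C.A (X.prod Y)) = 0 := by
  have := om_smul c M 0 (0 : C.A (X.prod Y))
  rw [zero_smul, Rat.cast_zero, zero_smul] at this
  exact this

lemma om_comp (Γ : C.A (X.prod Y)) (Δ : C.A (Y.prod Z)) :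
    om c M (C.comp Γ Δ) = om c M Δ ∘ₗ om c M Γ := by
  have h1 : M.act (C.comp Γ Δ) = M.act Δ ∘ₗ M.act Γ :=
    LinearMap.ext fun a => M.act_comp Γ Δ a
  rw [om, corr_cl_comp, h1, LinearMap.baseChange_comp]
  apply LinearMap.ext
  intro x
  rfl

lemma om_dg (X : 𝒱.Obj) : om c M (dg C X) = LinearMap.id := by
  have h1 : M.act (dg C X) = LinearMap.id := LinearMap.ext fun a => M.act_dg X a
  rw [om, corr_cl_dg, h1, LinearMap.baseChange_id]
  apply LinearMap.ext
  intro x
  rfl

/-- The operators given by self-correspondences. -/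
noncomputable def omR (X : 𝒱.Obj) : Cor C X →+* Module.End W.K (Hm c M X) where
  toFun a := om c M (X := X) (Y := X) a
  map_one' := om_dg c M X
  map_mul' a b := om_comp c M (X := X) (Y := X) (Z := X) b a
  map_zero' := om_zero c M
  map_add' a b := om_add c M (X := X) (Y := X) a b

/-! ### The category -/

/-- The operators between the powers of `X`. -/
noncomputable def Cm (X : 𝒱.Obj) (m n : ℕ) :
    Submodule W.K (Hm c M (pw X m) →ₗ[W.K] Hm c M (pw X n)) :=
  Submodule.span W.K (Set.range fun Γ : C.A ((pw X m).prod (pw X n)) => om c M Γ)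

lemma om_mem {m n : ℕ} (Γ : C.A ((pw X m).prod (pw X n))) : om c M Γ ∈ Cm c M X m n :=
  Submodule.subset_span ⟨Γ, rfl⟩

lemma isCat_Cm : IsCat (H := fun n => Hm c M (pw X n)) (Cm c M X) where
  id_mem n := by
    rw [← om_dg c M (pw X n)]
    exact om_mem c M _
  comp_mem := by
    intro l m n g f hg hf
    induction hg using Submodule.span_induction with
    | mem g hg =>
      obtain ⟨Δ, rfl⟩ := hg
      induction hf using Submodule.span_induction with
      | mem f hf =>
        obtain ⟨Γ, rfl⟩ := hf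
        have h1 := om_comp c M Γ Δ
        rw [← h1]
        exact om_mem c M _
      | zero => rw [LinearMap.comp_zero]; exact Submodule.zero_mem _
      | add a b _ _ ha hb => rw [LinearMap.comp_add]; exact Submodule.add_mem _ ha hb
      | smul r a _ ha => rw [LinearMap.comp_smul]; exact Submodule.smul_mem _ _ ha
    | zero => rw [LinearMap.zero_comp]; exact Submodule.zero_mem _
    | add a b _ _ ha hb => rw [LinearMap.add_comp]; exact Submodule.add_mem _ ha hb
    | smul r a _ ha => rw [LinearMap.smul_comp]; exact Submodule.smul_mem _ _ ha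

/-- The first block of an operator. -/
noncomputable def prM (X Y : 𝒱.Obj) :
    (Hm c M X →ₗ[W.K] Hm c M Y) →ₗ[W.K] (W.H X →ₗ[W.K] W.H Y) where
  toFun f := LinearMap.fst W.K _ _ ∘ₗ f ∘ₗ LinearMap.inl W.K _ _
  map_add' f g := by
    rw [LinearMap.add_comp, LinearMap.comp_add]
  map_smul' r f := by
    rw [LinearMap.smul_comp, LinearMap.comp_smul]
    rfl

lemma prM_apply (f : Hm c M X →ₗ[W.K] Hm c M Y) (a : W.H X) :
    prM c M X Y f a = (f (a, 0)).1 := rfl

lemma prM_om (Γ : C.A (X.prod Y)) : prM c M X Y (om c M Γ) = W.corr (c.cl _ Γ) := by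
  apply LinearMap.ext
  intro a
  rfl

lemma Cm_fst {m n : ℕ} {f : Hm c M (pw X m) →ₗ[W.K] Hm c M (pw X n)} (hf : f ∈ Cm c M X m n)
    (x : Hm c M (pw X m)) : (f x).1 = prM c M _ _ f x.1 := by
  induction hf using Submodule.span_induction with
  | mem f hf =>
    obtain ⟨Γ, rfl⟩ := hf
    rfl
  | zero => rfl
  | add a b _ _ ha hb =>
    rw [map_add, LinearMap.add_apply, LinearMap.add_apply, Prod.fst_add, ha, hb]
  | smul r a _ ha =>
    rw [map_smul, LinearMap.smul_apply, LinearMap.smul_apply, Prod.smul_fst, ha]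

lemma prM_comp {l m n : ℕ} {g : Hm c M (pw X m) →ₗ[W.K] Hm c M (pw X n)}
    (hg : g ∈ Cm c M X m n) (f : Hm c M (pw X l) →ₗ[W.K] Hm c M (pw X m)) :
    prM c M _ _ (g ∘ₗ f) = prM c M _ _ g ∘ₗ prM c M _ _ f := by
  apply LinearMap.ext
  intro a
  rw [prM_apply, LinearMap.comp_apply, Cm_fst c M hg, LinearMap.comp_apply, prM_apply c M f]

lemma prM_id (Y : 𝒱.Obj) : prM c M Y Y LinearMap.id = LinearMap.id := rfl

lemma prM_pow {n : ℕ} {f : Module.End W.K (Hm c M (pw X n))} (hf : f ∈ Cm c M X n n) (r : ℕ) :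
    prM c M _ _ (f ^ r : Module.End W.K (Hm c M (pw X n))) =
      (prM c M _ _ f : Module.End W.K _) ^ r := by
  induction r with
  | zero => rfl
  | succ r ih =>
    rw [pow_succ', pow_succ', ← ih]
    exact prM_comp c M hf _

lemma map_prM (m n : ℕ) : (Cm c M X m n).map (prM c M (pw X m) (pw X n)) = CP W X m n := by
  apply le_antisymm
  · rw [Cm, Submodule.map_span_le]
    rintro _ ⟨Γ, rfl⟩
    change prM c M _ _ (om c M Γ) ∈ _
    rw [prM_om]
    exact map_corr_mem (c.cl_mem_algSpan Γ)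
  · intro f hf
    obtain ⟨d, hd, rfl⟩ := exists_corr_eq hf
    rw [c.algSpan_eq] at hd
    induction hd using Submodule.span_induction with
    | mem a ha =>
      obtain ⟨Γ, rfl⟩ := ha
      exact ⟨om c M Γ, om_mem c M Γ, prM_om c M Γ⟩
    | zero => rw [corr_zero]; exact Submodule.zero_mem _
    | add a b _ _ ha hb =>
      rw [corr_add]
      exact Submodule.add_mem _ (ha (map_corr_mem (by rw [c.algSpan_eq]; assumption)))
        (hb (map_corr_mem (by rw [c.algSpan_eq]; assumption)))
    | smul r a _ ha =>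
      rw [corr_smul]
      exact Submodule.smul_mem _ _ (ha (map_corr_mem (by rw [c.algSpan_eq]; assumption)))

section repr

variable {ι : Type*} (b : Module.Basis ι ℚ W.K)

lemma repr_aux (r : W.K) (Γ : C.A (X.prod Y)) :
    ∃ m : ι →₀ C.A (X.prod Y), r • om c M Γ = m.sum fun i x => b i • om c M x := by
  refine ⟨(b.repr r).mapRange (fun q => q • Γ) (zero_smul _ _), ?_⟩
  rw [Finsupp.sum_mapRange_index (fun i => by rw [om_zero, smul_zero])]
  have h1 : ∀ i (q : ℚ), b i • om c M (q • Γ) = (q • b i) • om c M Γ := fun i q => by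
    rw [om_smul, smul_smul, Rat.smul_def, mul_comm]
  simp only [h1]
  have h2 : ((b.repr r).sum fun i q => (q • b i) • om c M Γ) =
      ((b.repr r).sum fun i q => q • b i) • om c M Γ := by
    rw [Finsupp.sum, Finsupp.sum, Finset.sum_smul]
  rw [h2]
  congr 1
  exact (b.linearCombination_repr r).symm

lemma exists_repr {f : Hm c M X →ₗ[W.K] Hm c M Y}
    (hf : f ∈ Submodule.span W.K (Set.range fun Γ : C.A (X.prod Y) => om c M Γ)) :
    ∃ m : ι →₀ C.A (X.prod Y), f = m.sum fun i x => b i • om c M x := by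
  have hadd : ∀ m m' : ι →₀ C.A (X.prod Y), (m + m').sum (fun i x => b i • om c M x) =
      m.sum (fun i x => b i • om c M x) + m'.sum (fun i x => b i • om c M x) := fun m m' =>
    Finsupp.sum_add_index' (fun i => by rw [om_zero, smul_zero])
      (fun i x y => by rw [om_add, smul_add])
  induction hf using Submodule.span_induction with
  | mem f hf =>
    obtain ⟨Γ, rfl⟩ := hf
    obtain ⟨m, hm⟩ := repr_aux c M b 1 Γ
    rw [one_smul] at hm
    exact ⟨m, hm⟩
  | zero => exact ⟨0, by rw [Finsupp.sum_zero_index]⟩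
  | add f g _ _ hf hg =>
    obtain ⟨m, rfl⟩ := hf
    obtain ⟨m', rfl⟩ := hg
    exact ⟨m + m', (hadd m m').symm⟩
  | smul r f _ hf =>
    obtain ⟨m, rfl⟩ := hf
    rw [Finsupp.smul_sum]
    have h1 : ∀ i x, ∃ m : ι →₀ C.A (X.prod Y), r • b i • om c M x =
        m.sum fun i x => b i • om c M x := fun i x => by
      rw [smul_smul]
      exact repr_aux c M b _ _
    rw [Finsupp.sum]
    refine Finset.sum_induction (s := m.support) (f := fun i => r • b i • om c M (m i))
      (p := fun f => ∃ m : ι →₀ C.A (X.prod Y), f = m.sum fun i x => b i • om c M x) ?_ ?_ ?_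
    · rintro f g ⟨m, rfl⟩ ⟨m', rfl⟩
      exact ⟨m + m', (hadd m m').symm⟩
    · exact ⟨0, by rw [Finsupp.sum_zero_index]⟩
    · intro i _
      exact h1 i (m i)

end repr

/-- The operators of the numerically trivial self-correspondences of the powers of `X` are
nilpotent. -/
def NilOn (c : ClassMap W C) (M : CorMod.{u, w, x} C) (X : 𝒱.Obj) : Prop :=
  ∀ n, ∀ f : C.A ((pw X n).prod (pw X n)), f ∈ numSub c _ →
    IsNilpotent (om c M f : Module.End W.K (Hm c M (pw X n)))

lemma nilOn_of_nil (h : Nil c X) : NilOn c M X := fun n f hf => (h n f hf).map (omR c M (pw X n))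

variable {S : Set 𝒱.Obj} (hS : GoodSet W S) (hX : X ∈ S) [Nontrivial (W.H X)]

include hS hX

lemma mem_span_num {m n : ℕ} {f : Hm c M (pw X m) →ₗ[W.K] Hm c M (pw X n)}
    (hf : f ∈ Cm c M X m n)
    (h : prM c M _ _ f ∈ perp (H := fun n => W.H (pw X n)) (CP W X) m n) :
    f ∈ Submodule.span W.K ((fun Γ : C.A ((pw X m).prod (pw X n)) => om c M Γ) ''
      (numSub c ((pw X m).prod (pw X n)))) := by
  let b := Module.Basis.ofVectorSpace ℚ W.K
  obtain ⟨μ, rfl⟩ := exists_repr c M b hf
  have hnt : Nontrivial (W.H ((pw X m).prod (pw X n))) := nontrivial_prod_pw m n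
  have h1 : prM c M _ _ (μ.sum fun i x => b i • om c M x) =
      W.corr (μ.sum fun i x => b i • c.cl _ x) := by
    change prM c M _ _ _ = corrL W _ _ _
    rw [Finsupp.sum, Finsupp.sum, map_sum, map_sum]
    apply Finset.sum_congr rfl
    intro i _
    rw [map_smul, map_smul, prM_om]
    rfl
  have h2 : (μ.sum fun i x => b i • c.cl _ x) ∈ algSpan W ((pw X m).prod (pw X n)) := by
    rw [Finsupp.sum]
    exact Submodule.sum_mem _ fun i _ => Submodule.smul_mem _ _ (c.cl_mem_algSpan _)
  rw [h1] at h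
  have h3 := good_corr (hS.good (hS.pw_mem hX n) (hS.pw_mem hX m)) h2 h
  have h4 := mem_numSub_of_sum c b h3
  rw [Finsupp.sum]
  exact Submodule.sum_mem _ fun i _ => Submodule.smul_mem _ _
    (Submodule.subset_span ⟨_, h4 i, rfl⟩)

variable [∀ n, Module.Finite ℚ (M.M (pw X n))]

omit hS hX in
lemma trace_span_num (hN : NilOn c M X) {n : ℕ} {f : Module.End W.K (Hm c M (pw X n))}
    (h : f ∈ Submodule.span W.K ((fun Γ : C.A ((pw X n).prod (pw X n)) => om c M Γ) ''
      (numSub c ((pw X n).prod (pw X n))))) :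
    LinearMap.trace W.K (Hm c M (pw X n)) f = 0 := by
  induction h using Submodule.span_induction with
  | mem f hf =>
    obtain ⟨Γ, hΓ, rfl⟩ := hf
    exact Y129.trace_nil (hN n Γ hΓ)
  | zero => exact map_zero (LinearMap.trace W.K (Hm c M (pw X n)))
  | add a b _ _ ha hb =>
    exact (map_add (LinearMap.trace W.K (Hm c M (pw X n))) a b).trans (by rw [ha, hb, add_zero])
  | smul r a _ ha =>
    exact (map_smul (LinearMap.trace W.K (Hm c M (pw X n))) r a).trans (by rw [ha, smul_zero])

/-- The radicals of the two trace forms. -/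
lemma perp_iff (hN : NilOn c M X) {m n : ℕ} {f : Hm c M (pw X m) →ₗ[W.K] Hm c M (pw X n)}
    (hf : f ∈ Cm c M X m n) : f ∈ perp (H := fun n => Hm c M (pw X n)) (Cm c M X) m n ↔
      prM c M _ _ f ∈ perp (H := fun n => W.H (pw X n)) (CP W X) m n := by
  have hCat := isCat_Cm c M (X := X)
  constructor
  · intro h g hg
    rw [← map_prM c M] at hg
    obtain ⟨g, hg, rfl⟩ := hg
    rw [← prM_comp c M hg]
    set y : Module.End W.K (Hm c M (pw X m)) := g ∘ₗ f with hy
    have hyC : y ∈ Cm c M X m m := hCat.comp_mem hg hf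
    have hpow : ∀ r : ℕ, (y ^ r : Module.End W.K (Hm c M (pw X m))) ∈ Cm c M X m m := by
      intro r
      induction r with
      | zero => exact hCat.id_mem m
      | succ r ih => rw [pow_succ]; exact hCat.comp_mem ih hyC
    have h1 : IsNilpotent y := by
      apply isNilpotent_of_trace_pow
      intro r
      rw [pow_succ]
      exact h ((y ^ r : Module.End W.K (Hm c M (pw X m))) ∘ₗ g) (hCat.comp_mem (hpow r) hg)
    obtain ⟨r, hr⟩ := h1
    apply Y129.trace_nil
    refine ⟨r, ?_⟩
    rw [← prM_pow c M hyC, hr]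
    rfl
  · intro h g hg
    apply trace_span_num c M hN
    apply mem_span_num c M hS hX (hCat.comp_mem hg hf)
    rw [prM_comp c M hg]
    have h1 : prM c M _ _ g ∈ CP W X n m := by
      rw [← map_prM c M]
      exact ⟨g, hg, rfl⟩
    exact Pool.Agent.Y129.perp_comp (isPowers_cat W X) h h1

end Pool.Agent.Y133.AJ
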