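import Pool.Agent.Y133.AJ.Mod
import Pool.Agent.Y133.AJ.Abs

/-!
# The ratio law for a module over the correspondences
-/

set_option linter.unusedSectionVars false

open CategoryTheory AlgebraicGeometry TensorProduct Filter Topology

universe u v w x

namespace Pool.Agent.Y133.AJ

open Pool.Agent.H914 Pool.Agent.H914.VarClass Pool.Agent.H914.VarClass.Obj
  Pool.Agent.H914.WeilCohomology Pool.Agent.W492.BB Pool.Agent.Y129 Pool.Agent.TH133
  Pool.Agent.H281R3.HT Pool.Agent.Y133.Chow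

variable {k : Type u} [Field k] {𝒱 : VarClass k} {ops : CycleOps 𝒱}
  {W : WeilCohomology.{u, v} ops} {C : TheoryData.{u, w, 0} 𝒱 ℚ} [hC : IsChowProj C]
  (c : ClassMap W C) (M : CorMod.{u, w, x} C) {X Y Z : 𝒱.Obj}

/-- A family of subspaces of the module on the powers of `X` which is stable under
correspondences. -/
def ModStable (M : CorMod.{u, w, x} C) (X : 𝒱.Obj)
    (G : ∀ n, Submodule ℚ (M.M (pw X n))) : Prop :=
  ∀ m n (Γ : C.A ((pw X m).prod (pw X n))), ∀ x ∈ G m, M.act Γ x ∈ G n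

/-- The corresponding subspaces of the sum of cohomology and the module. -/
noncomputable def mSys (G : ∀ n, Submodule ℚ (M.M (pw X n))) (n : ℕ) :
    Submodule W.K (Hm c M (pw X n)) :=
  ((G n).baseChange W.K).map (LinearMap.inr W.K (W.H (pw X n)) (W.K ⊗[ℚ] M.M (pw X n)))

lemma finrank_mSys (G : ∀ n, Submodule ℚ (M.M (pw X n))) (n : ℕ) :
    Module.finrank W.K (mSys c M G n) = Module.finrank ℚ (G n) := by
  rw [mSys, ← finrank_baseChange W.K (G n)]
  exact (LinearEquiv.finrank_eq (Submodule.equivMapOfInjective _ LinearMap.inr_injective _)).symm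

lemma mSys_mono {G' G : ∀ n, Submodule ℚ (M.M (pw X n))} (h : ∀ n, G' n ≤ G n) (n : ℕ) :
    mSys c M G' n ≤ mSys c M G n :=
  Submodule.map_mono (Submodule.baseChange_mono W.K (h n))

lemma mSys_ne [∀ n, Module.Finite ℚ (M.M (pw X n))] {G' G : ∀ n, Submodule ℚ (M.M (pw X n))}
    (h : ∀ n, G' n ≤ G n) {n : ℕ} (hne : G' n ≠ G n) : mSys c M G' n ≠ mSys c M G n := by
  intro h1
  apply hne
  apply Submodule.eq_of_le_of_finrank_le (h n)
  rw [← finrank_mSys c M G, ← finrank_mSys c M G', h1]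

lemma mSys_stable {G : ∀ n, Submodule ℚ (M.M (pw X n))} (hG : ModStable M X G) :
    IsStable (H := fun n => Hm c M (pw X n)) (Cm c M X) (mSys c M G) := by
  intro m n f hf a ha
  obtain ⟨y, hy, rfl⟩ := ha
  induction hf using Submodule.span_induction with
  | mem f hf =>
    obtain ⟨Γ, rfl⟩ := hf
    refine ⟨(M.act Γ).baseChange W.K y, ?_, ?_⟩
    · have h1 : (G m).baseChange W.K ≤ ((G n).baseChange W.K).comap
          ((M.act Γ).baseChange W.K) := by
        rw [Submodule.baseChange_eq_span, Submodule.span_le]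
        rintro _ ⟨x, hx, rfl⟩
        change (M.act Γ).baseChange W.K ((1 : W.K) ⊗ₜ[ℚ] x) ∈ (G n).baseChange W.K
        rw [LinearMap.baseChange_tmul]
        exact Submodule.tmul_mem_baseChange_of_mem _ (hG m n Γ x hx)
      exact h1 hy
    · apply Prod.ext
      · change (0 : W.H (pw X n)) = W.corr (c.cl _ Γ) 0
        rw [map_zero]
      · rfl
  | zero => exact Submodule.zero_mem _
  | add f g _ _ hf hg => exact Submodule.add_mem _ hf hg
  | smul r f _ hf => exact Submodule.smul_mem _ _ hf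

variable {S : Set 𝒱.Obj} (hS : GoodSet W S) (hX : X ∈ S) [Nontrivial (W.H X)]
  [∀ n, Module.Finite ℚ (M.M (pw X n))]

include hS hX

lemma isExt_mod (hN : NilOn c M X) :
    IsExt (H := fun n => W.H (pw X n)) (H' := fun n => Hm c M (pw X n))
      (CP W X) (Cm c M X) (fun m n => prM c M (pw X m) (pw X n)) :=
  isExt_of_perp (isCat_Cm c M) (fun m n => map_prM c M m n) (fun _ => rfl)
    (fun f hg => prM_comp c M hg f) (fun hf => perp_iff c M hS hX hN hf)

variable [IsAlgClosed W.K]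

/-- The ratio law. -/
theorem mod_law (hN : NilOn c M X) {G : ∀ n, Submodule ℚ (M.M (pw X n))}
    (hG : ModStable M X G) :
    (∃ N : ℕ, Tendsto (fun n => (Module.finrank ℚ (G n) : ℝ) / numRank W (pw X n)) atTop
        (𝓝 (N : ℝ))) ∨
    Tendsto (fun n => (Module.finrank ℚ (G n) : ℝ) / numRank W (pw X n)) atTop atTop := by
  have h1 := (isExt_mod c M hS hX hN).law (isPowers hS hX) (mSys_stable c M hG)
  simp only [finrank_mSys] at h1
  exact h1.imp_left fun ⟨N, h⟩ => ⟨N, h.2⟩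

/-- The gap. -/
theorem mod_gap (hN : NilOn c M X) {G' G : ∀ n, Submodule ℚ (M.M (pw X n))}
    (hG' : ModStable M X G') (hG : ModStable M X G) (hle : ∀ n, G' n ≤ G n) {m : ℕ}
    (hne : G' m ≠ G m) {N' N : ℝ}
    (h1 : Tendsto (fun n => (Module.finrank ℚ (G' n) : ℝ) / numRank W (pw X n)) atTop (𝓝 N'))
    (h2 : Tendsto (fun n => (Module.finrank ℚ (G n) : ℝ) / numRank W (pw X n)) atTop (𝓝 N)) :
    N' + 1 ≤ N := by
  refine (isExt_mod c M hS hX hN).gap_limit (isPowers hS hX) (mSys_stable c M hG')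
    (mSys_stable c M hG) (mSys_mono c M hle) (mSys_ne c M hle hne) ?_ ?_
  · simp only [finrank_mSys]
    exact h1
  · simp only [finrank_mSys]
    exact h2

/-! ### Indices -/

omit hS hX [Nontrivial (W.H X)] [∀ n, Module.Finite ℚ (M.M (pw X n))] [IsAlgClosed W.K] in
lemma top_modStable : ModStable M X (fun _ => ⊤) := fun _ _ _ _ _ => trivial

omit hS hX [Nontrivial (W.H X)] [∀ n, Module.Finite ℚ (M.M (pw X n))] [IsAlgClosed W.K] in
lemma bot_modStable : ModStable M X (fun _ => ⊥) := by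
  intro m n Γ x hx
  rw [Submodule.mem_bot] at hx ⊢
  rw [hx, map_zero]

lemma exists_midx (hN : NilOn c M X) {N : ℝ}
    (h1 : Tendsto (fun n => (Module.finrank ℚ (⊤ : Submodule ℚ (M.M (pw X n))) : ℝ) /
      numRank W (pw X n)) atTop (𝓝 N))
    {G : ∀ n, Submodule ℚ (M.M (pw X n))} (hG : ModStable M X G) :
    ∃ N' : ℕ, Tendsto (fun n => (Module.finrank ℚ (G n) : ℝ) / numRank W (pw X n)) atTop
      (𝓝 (N' : ℝ)) ∧ (N' : ℝ) ≤ N := by
  have hle : ∀ n, (Module.finrank ℚ (G n) : ℝ) / numRank W (pw X n) ≤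
      (Module.finrank ℚ (⊤ : Submodule ℚ (M.M (pw X n))) : ℝ) / numRank W (pw X n) := by
    intro n
    apply div_le_div_of_nonneg_right _ (Nat.cast_nonneg _)
    exact_mod_cast Submodule.finrank_mono le_top
  rcases mod_law c M hS hX hN hG with ⟨N', h2⟩ | h2
  · exact ⟨N', h2, le_of_tendsto_of_tendsto' h2 h1 hle⟩
  · exfalso
    exact not_tendsto_nhds_of_tendsto_atTop (tendsto_atTop_mono hle h2) _ h1

lemma one_le_midx (hN : NilOn c M X) {G : ∀ n, Submodule ℚ (M.M (pw X n))}
    (hG : ModStable M X G) {m : ℕ} (hne : G m ≠ ⊥) {N : ℝ}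
    (h1 : Tendsto (fun n => (Module.finrank ℚ (G n) : ℝ) / numRank W (pw X n)) atTop (𝓝 N)) :
    1 ≤ N := by
  have h2 := mod_gap c M hS hX hN (G' := fun _ => ⊥) (bot_modStable M) hG (fun _ => bot_le)
    (m := m) hne.symm (N' := 0) (N := N) (by simp) h1
  linarith

end Pool.Agent.Y133.AJ
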