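import Pool.Agent.Y133.AJ.ModLaw
import Pool.Agent.Y133.Chow.Iso

/-!
# Systems of subspaces of the Chow groups
-/

set_option linter.unusedSectionVars false

open CategoryTheory AlgebraicGeometry TensorProduct Filter Topology

universe u v w x

namespace Pool.Agent.Y133.AJ

open Pool.Agent.H914 Pool.Agent.H914.VarClass Pool.Agent.H914.VarClass.Obj
  Pool.Agent.H914.WeilCohomology Pool.Agent.W492.BB Pool.Agent.Y129 Pool.Agent.TH133
  Pool.Agent.H281R3.HT Pool.Agent.Y133.Chow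
open Pool.Agent.W550.Corr (dg comp_eq_extR comp_dg dg_comp comp_assoc compL compL_apply HasIso
  push_model act_dg)

section alg

variable {A : Type*} [Ring A] [Algebra ℚ A] (I : Submodule ℚ A) [Module.Finite ℚ I]

/-- Orthogonal idempotents in a subspace. -/
lemma sum_finrank_le_sub {n : ℕ} (f : Fin n → A) (h1 : ∀ i, f i * f i = f i)
    (h2 : ∀ i j, i ≠ j → f i * f j = 0) (hI : ∀ i a, f i * a ∈ I) :
    ∑ i, Module.finrank ℚ (LinearMap.range (LinearMap.mulLeft ℚ (f i))) ≤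
      Module.finrank ℚ I := by
  have hle : ∀ i, LinearMap.range (LinearMap.mulLeft ℚ (f i)) ≤ I := by
    rintro i _ ⟨a, rfl⟩
    exact hI i a
  have hfin : ∀ i, Module.Finite ℚ (LinearMap.range (LinearMap.mulLeft ℚ (f i))) := fun i =>
    Submodule.finiteDimensional_of_le (hle i)
  rw [← Module.finrank_pi_fintype]
  let F : I →ₗ[ℚ] (∀ i, LinearMap.range (LinearMap.mulLeft ℚ (f i))) :=
    LinearMap.pi fun i => (LinearMap.mulLeft ℚ (f i)).rangeRestrict ∘ₗ I.subtype
  apply LinearMap.finrank_le_finrank_of_surjective (f := F)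
  intro y
  choose a ha using fun i => (y i).2
  refine ⟨⟨∑ j, f j * a j, I.sum_mem fun j _ => hI j _⟩, ?_⟩
  funext i
  apply Subtype.ext
  change f i * ∑ j, f j * a j = (y i).1
  rw [← ha i, Finset.mul_sum, Finset.sum_eq_single i]
  · rw [← mul_assoc, h1, LinearMap.mulLeft_apply]
  · intro j _ hj
    rw [← mul_assoc, h2 i j (Ne.symm hj), zero_mul]
  · simp

/-- A nonzero idempotent from an element which is not nilpotent. -/
lemma exists_idem_sub {g : A} (hI : ∀ r : ℕ, g ^ (r + 1) ∈ I) (hg : ¬ IsNilpotent g) :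
    ∃ e y : A, e * e = e ∧ e ≠ 0 ∧ e = g * y := by
  let B := Algebra.adjoin ℚ ({g} : Set A)
  have hB : Subalgebra.toSubmodule B ≤ Submodule.span ℚ {1} ⊔ I := by
    intro x hx
    have hx' : x ∈ Algebra.adjoin ℚ ({g} : Set A) := hx
    rw [Algebra.adjoin_singleton_eq_range_aeval] at hx'
    obtain ⟨p, rfl⟩ := hx'
    change Polynomial.aeval g p ∈ _
    rw [Polynomial.aeval_eq_sum_range]
    apply Submodule.sum_mem
    intro i _
    apply Submodule.smul_mem
    cases i with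
    | zero =>
      rw [pow_zero]
      exact Submodule.mem_sup_left (Submodule.subset_span rfl)
    | succ i => exact Submodule.mem_sup_right (hI i)
  have hfin : Module.Finite ℚ (Subalgebra.toSubmodule B) :=
    Submodule.finiteDimensional_of_le hB
  have hfin' : Module.Finite ℚ B := hfin
  have hgB : g ∈ B := Algebra.subset_adjoin rfl
  have hg' : ¬ IsNilpotent (⟨g, hgB⟩ : B) := by
    intro h
    exact hg (h.map B.val)
  obtain ⟨e, y, h1, h2, h3⟩ := exists_idem_mul hg'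
  refine ⟨e, y, ?_, ?_, ?_⟩
  · exact congrArg Subtype.val h1
  · intro h0
    exact h2 (Subtype.ext h0)
  · exact congrArg Subtype.val h3

end alg

variable {k : Type u} [Field k] {𝒱 : VarClass k} {ops : CycleOps 𝒱}
  {W : WeilCohomology.{u, v} ops} {C : TheoryData.{u, w, 0} 𝒱 ℚ} [hC : IsChowProj C]
  (c : ClassMap W C) {X Y Z V : 𝒱.Obj}

/-- A system of subspaces of the Chow groups which is stable under correspondences and which
contains the images of numerically trivial elements under numerically trivial correspondences. -/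
structure IsSys (c : ClassMap W C) (S : Set 𝒱.Obj) (F : ∀ Y : 𝒱.Obj, Submodule ℚ (C.A Y)) :
    Prop where
  act : ∀ {Y Z : 𝒱.Obj} (Γ : C.A (Y.prod Z)) {x : C.A Y}, x ∈ F Y → C.act Γ x ∈ F Z
  sq : ∀ {Y Z : 𝒱.Obj}, Y ∈ S → Z ∈ S → ∀ {Γ : C.A (Y.prod Z)} {x : C.A Y},
    Γ ∈ numSub c (Y.prod Z) → x ∈ numSub c Y → C.act Γ x ∈ F Z

namespace IsSys

variable {c} {S : Set 𝒱.Obj} {F : ∀ Y : 𝒱.Obj, Submodule ℚ (C.A Y)} (hF : IsSys c S F)

include hF

lemma pull (f : Y ⟶ Z) {x : C.A Z} (hx : x ∈ F Z) : C.pull f x ∈ F Y := by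
  rw [← C.act_cograph]
  exact hF.act _ hx

lemma push (f : Y ⟶ Z) {x : C.A Y} (hx : x ∈ F Y) : C.push f x ∈ F Z := by
  rw [← C.act_graph]
  exact hF.act _ hx

lemma mul {x : C.A Y} (hx : x ∈ F Y) (a : C.A Y) : a * x ∈ F Y := by
  rw [← C.act_mulCorr]
  exact hF.act _ hx

lemma mul' {x : C.A Y} (hx : x ∈ F Y) (a : C.A Y) : x * a ∈ F Y := by
  rw [chow_mul_comm]
  exact hF.mul hx a

lemma comp {Γ : C.A (X.prod Y)} (hΓ : Γ ∈ F (X.prod Y)) (Δ : C.A (Y.prod Z)) :
    C.comp Γ Δ ∈ F (X.prod Z) :=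
  hF.push _ (hF.mul (hF.pull _ hΓ) _)

lemma comp' (Γ : C.A (X.prod Y)) {Δ : C.A (Y.prod Z)} (hΔ : Δ ∈ F (Y.prod Z)) :
    C.comp Γ Δ ∈ F (X.prod Z) :=
  hF.push _ (hF.mul' (hF.pull _ hΔ) _)

lemma tens {a : C.A (X.prod X)} (ha : a ∈ F (X.prod X)) (b : C.A (Y.prod Y)) :
    TH133.tens C a b ∈ F _ := hF.mul' (hF.pull _ ha) _

/-- The products of numerically trivial correspondences. -/
lemma comp_mem (hX : X ∈ S) (hS : ∀ {Y Z : 𝒱.Obj}, Y ∈ S → Z ∈ S → Y.prod Z ∈ S)
    {Γ Δ : C.A (X.prod X)} (hΓ : Γ ∈ numSub c (X.prod X)) (hΔ : Δ ∈ numSub c (X.prod X)) :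
    C.comp Γ Δ ∈ F (X.prod X) := by
  refine hF.push _ ?_
  rw [← C.act_mulCorr]
  have h1 : (X.prod X).prod X ∈ S := hS (hS hX hX) hX
  exact hF.sq h1 h1 (numSub_push _ (numSub_pull _ hΔ)) (numSub_pull _ hΓ)

/-- The system as a module over the correspondences. -/
noncomputable def toMod : CorMod.{u, w, w} C where
  M Y := F Y
  act {Y Z} := LinearMap.mk₂ ℚ (fun Γ (x : F Y) => (⟨C.act Γ x, hF.act Γ x.2⟩ : F Z))
    (fun Γ Δ x => Subtype.ext (C.act_add Γ Δ x))
    (fun q Γ x => Subtype.ext (by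
      change C.act (q • Γ) x.1 = q • C.act Γ x.1
      rw [C.act_apply, C.act_apply, smul_mul_assoc, map_smul]))
    (fun Γ x y => Subtype.ext ((C.actL Γ).map_add x.1 y.1))
    (fun q Γ x => Subtype.ext ((C.actL Γ).map_smul q x.1))
  act_comp Γ Δ a := Subtype.ext (C.act_comp Γ Δ a.1)
  act_dg X a := Subtype.ext (act_dg C a.1)

/-- The isomorphism of the systems given by an isomorphism. -/
noncomputable def equiv (φ : X ≅ Y) : F Y ≃ₗ[ℚ] F X :=
  LinearEquiv.ofLinearMap
    ((C.pull φ.hom).toLinearMap.restrict fun _ hx => hF.pull φ.hom hx)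
    ((C.pull φ.inv).toLinearMap.restrict fun _ hx => hF.pull φ.inv hx)
    (LinearMap.ext fun x => Subtype.ext (by
      change C.pull φ.hom (C.pull φ.inv x.1) = x.1
      rw [← C.pull_comp, φ.hom_inv_id, C.pull_id]))
    (LinearMap.ext fun x => Subtype.ext (by
      change C.pull φ.inv (C.pull φ.hom x.1) = x.1
      rw [← C.pull_comp, φ.inv_hom_id, C.pull_id]))

lemma finrank_iso (φ : X ≅ Y) : Module.finrank ℚ (F X) = Module.finrank ℚ (F Y) :=
  (hF.equiv φ).finrank_eq.symm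

lemma finite_iso (φ : X ≅ Y) [Module.Finite ℚ (F Y)] : Module.Finite ℚ (F X) :=
  Module.Finite.equiv (hF.equiv φ)

lemma finite_powSet [∀ n, Module.Finite ℚ (F (pw X n))] (h : Y ∈ powSet X) :
    Module.Finite ℚ (F Y) := by
  obtain ⟨n, ⟨i⟩⟩ := h
  exact hF.finite_iso i

lemma snd_injective (X Y : 𝒱.Obj) : Function.Injective
    ((C.pull (snd X Y)).toLinearMap.restrict fun _ (hx : _ ∈ F Y) => hF.pull (snd X Y) hx) := by
  intro x y hxy
  exact Subtype.ext (pull_snd_injective X Y (congrArg Subtype.val hxy))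

lemma finrank_mono [∀ n, Module.Finite ℚ (F (pw X n))] (n : ℕ) :
    Module.finrank ℚ (F (pw X n)) ≤ Module.finrank ℚ (F (pw X (n + 1))) :=
  LinearMap.finrank_le_finrank_of_injective (hF.snd_injective X (pw X n))

lemma not_finite_succ {n : ℕ} (h : ¬ Module.Finite ℚ (F (pw X n))) :
    ¬ Module.Finite ℚ (F (pw X (n + 1))) := by
  intro h1
  have h2 : Module.Finite ℚ (F (X.prod (pw X n))) := h1
  exact h (Module.Finite.of_injective _ (hF.snd_injective X (pw X n)))

end IsSys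

end Pool.Agent.Y133.AJ
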